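import Pool.Agent.W2helper36.CY.C

/-!
# The largest number of cycles in a graph with m edges has an exponential growth rate
(MP_94842c_co)

`c m` is the largest number of cycles in a finite simple graph with `m` edges. We show that
`(c m)^(1/m)` has a limit `γ` and that `c m ≤ (m/3) γ^(m-1)` for every `m ≥ 1`. Consequently every
bound `c m ≤ C b^m` (for large `m`, with any constant) improves itself to `c m ≤ (m/3) b^(m-1)` for
all `m ≥ 1`; in particular one single graph with `m` edges and more than `(m/3) 1.4^(m-1)` cycles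
would refute Király's conjecture.

Idea: compare `c` with the largest number `q m` of paths between two vertices of a graph with `m`
edges. Gluing at a vertex gives `q a * q b ≤ q (a + b)`, so `(q m)^(1/m)` converges to its
supremum. Closing a path by three new edges gives `q m ≤ c (m + 3)`. A cycle has at least three
edges, so some edge is in at least `3 c m / m` cycles; deleting it turns these cycles into paths:
`3 c m ≤ m q (m - 1)`.
-/

set_option autoImplicit false
open Filter Topology

namespace Pool.Agent.Results.MP_94842c_co.GrowthRate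

/-- The edge sets of the cycles of the graph `G`. -/
def cycles {V : Type} (G : SimpleGraph V) : Set (Set (Sym2 V)) :=
  {E | ∃ (v : V) (w : G.Walk v v), w.IsCycle ∧ w.edgeSet = E}

/-- The largest number of cycles in a finite simple graph with exactly `m` edges. -/
noncomputable def c (m : ℕ) : ℕ :=
  sSup {k | ∃ (V : Type) (_ : Finite V) (G : SimpleGraph V), G.edgeSet.ncard = m ∧
    k = (cycles G).ncard}

/-- The edge sets of the paths of the graph `G` from `s` to `t`. -/
def paths {V : Type} (G : SimpleGraph V) (s t : V) : Set (Set (Sym2 V)) :=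
  {E | ∃ w : G.Walk s t, w.IsPath ∧ w.edgeSet = E}

/-- The largest number of paths between two vertices of a finite simple graph with exactly `m`
edges. -/
noncomputable def q (m : ℕ) : ℕ :=
  sSup {k | ∃ (V : Type) (_ : Finite V) (G : SimpleGraph V) (s t : V), G.edgeSet.ncard = m ∧
    k = (paths G s t).ncard}

open Pool.Agent.W2helper36

theorem growth_le {C b : ℝ} (hb : 0 < b) (h : ∀ᶠ m : ℕ in atTop, (CY.c m : ℝ) ≤ C * b ^ m) :
    Real.exp CY.Lr ≤ b := by
  have hC : 0 < C := by
    obtain ⟨m, hm, h4⟩ := (h.and (eventually_ge_atTop 4)).exists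
    obtain ⟨n, rfl⟩ : ∃ n, m = n + 3 := ⟨m - 3, by omega⟩
    have h1 : (1 : ℝ) ≤ CY.c (n + 3) := by exact_mod_cast CY.le_c n
    by_contra hC
    have h2 : C * b ^ (n + 3) ≤ 0 := mul_nonpos_of_nonpos_of_nonneg (not_lt.1 hC) (by positivity)
    linarith
  have hlim : Tendsto (fun m : ℕ => C ^ (1 / (m : ℝ)) * b) atTop (𝓝 (1 * b)) := by
    refine Tendsto.mul_const b ?_
    have h1 : Tendsto (fun m : ℕ => 1 / (m : ℝ)) atTop (𝓝 0) :=
      tendsto_one_div_atTop_nhds_zero_nat
    have h2 := (Real.continuousAt_const_rpow hC.ne' (b := 0)).tendsto.comp h1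
    rw [Real.rpow_zero] at h2
    exact h2
  rw [one_mul] at hlim
  refine le_of_tendsto_of_tendsto CY.tendsto_c hlim ?_
  filter_upwards [h, eventually_ge_atTop 1] with m hm h1
  have hm0 : (m : ℝ) ≠ 0 := by
    have : m ≠ 0 := by omega
    exact_mod_cast this
  refine (Real.rpow_le_rpow (by positivity) hm (by positivity)).trans ?_
  rw [Real.mul_rpow hC.le (by positivity), ← Real.rpow_natCast b m, ← Real.rpow_mul hb.le,
    mul_one_div_cancel hm0, Real.rpow_one]

/-- The growth rate `γ = lim (c m)^(1/m)` exists; it is also the growth rate `lim (q m)^(1/m)` of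
the largest number of paths between two vertices, `q m ≤ γ^m` and `c m ≤ (m/3) γ^(m-1)` for all
`m`; and every bound `c m ≤ C b^m` for all large `m` implies `c m ≤ (m/3) b^(m-1)` for all `m`. -/
theorem result : ∃ γ : ℝ, 0 < γ ∧
    Tendsto (fun m : ℕ => (c m : ℝ) ^ (1 / (m : ℝ))) atTop (𝓝 γ) ∧
    (∀ m : ℕ, 1 ≤ m → (c m : ℝ) ≤ m / 3 * γ ^ (m - 1)) ∧
    Tendsto (fun m : ℕ => (q m : ℝ) ^ (1 / (m : ℝ))) atTop (𝓝 γ) ∧
    (∀ m : ℕ, (q m : ℝ) ≤ γ ^ m) ∧
    ∀ C b : ℝ, 0 < b → (∀ᶠ m : ℕ in atTop, (c m : ℝ) ≤ C * b ^ m) →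
      ∀ m : ℕ, 1 ≤ m → (c m : ℝ) ≤ m / 3 * b ^ (m - 1) := by
  refine ⟨Real.exp CY.Lr, Real.exp_pos _, CY.tendsto_c, fun m hm => CY.c_le hm, CY.tendsto_q,
    CY.q_le_exp, fun C b hb h m hm => ?_⟩
  have h1 := growth_le hb h
  have h2 := CY.c_le hm
  refine h2.trans ?_
  have h3 : Real.exp CY.Lr ^ (m - 1) ≤ b ^ (m - 1) :=
    pow_le_pow_left₀ (Real.exp_pos _).le h1 _
  gcongr

end Pool.Agent.Results.MP_94842c_co.GrowthRate
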